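import Pool.Agent.H284R2.PolyP
import Pool.Agent.H284R2.Geom3
import Pool.Agent.H284R2.NoGood

set_option autoImplicit false

namespace Pool.Agent.Results.MP_1c334d_co.NotExtendable

open Pool.Agent.H284R2

/-- Euclidean `d`-space `ℝ^d`. -/
abbrev E (d : ℕ) : Type := EuclideanSpace ℝ (Fin d)

/-- A `d`-polytope: the convex hull of finitely many points of `ℝ^d` whose affine hull is all of
`ℝ^d` (so it has dimension `d`). -/
def IsDPolytope (d : ℕ) (P : Set (E d)) : Prop :=
  (∃ S : Finset (E d), P = convexHull ℝ (S : Set (E d))) ∧ affineSpan ℝ P = ⊤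

/-- The set of vertices (extreme points). -/
def vert {d : ℕ} (P : Set (E d)) : Set (E d) := Set.extremePoints ℝ P

/-- The set of all faces of `P`, with the empty face and `P` itself, ordered by inclusion. -/
def faces {d : ℕ} (P : Set (E d)) : Set (Set (E d)) := {F | IsExposed ℝ P F}

/-- Combinatorial equivalence: the face lattices are isomorphic. -/
def CombEquiv {d : ℕ} (P Q : Set (E d)) : Prop := Nonempty (faces P ≃o faces Q)

/-- `P` is neighborly: every set of at most `d / 2` vertices is the vertex set of a face. -/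
def Neighborly {d : ℕ} (P : Set (E d)) : Prop :=
  ∀ A : Finset (E d), (A : Set (E d)) ⊆ vert P → A.card ≤ d / 2 → ∃ F ∈ faces P, vert F = (A : Set (E d))

/-- `P` is extendable: some neighborly `d`-polytope `Q` with one more vertex has a vertex `v` such
that the convex hull of the other vertices of `Q` is combinatorially equivalent to `P`. -/
def Extendable {d : ℕ} (P : Set (E d)) : Prop :=
  ∃ Q : Set (E d), IsDPolytope d Q ∧ Neighborly Q ∧ (vert Q).ncard = (vert P).ncard + 1 ∧
    ∃ v ∈ vert Q, CombEquiv (convexHull ℝ (vert Q \ {v})) P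

theorem poly_isD : IsDPolytope 4 (poly pt) := by
  classical
  refine ⟨⟨Finset.univ.image pt, ?_⟩, span_top⟩
  simp [poly]

theorem poly_vert : vert (poly pt) = Set.range pt := ext_poly

theorem poly_ncard : (vert (poly pt)).ncard = 14 := by
  rw [poly_vert, ← Set.image_univ, Set.ncard_image_of_injective _ pt_inj, Set.ncard_univ,
    Nat.card_eq_fintype_card, Fintype.card_fin]

theorem poly_neighborly : Neighborly (poly pt) := by
  classical
  intro A hA hcard
  rw [poly_vert] at hA
  have hcard' : A.card ≤ 2 := hcard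
  have hc : A.card = 0 ∨ A.card = 1 ∨ A.card = 2 := by omega
  rcases hc with h | h | h
  · rw [Finset.card_eq_zero] at h
    subst h
    refine ⟨∅, isExposed_empty, ?_⟩
    simp [vert]
  · obtain ⟨x, rfl⟩ := Finset.card_eq_one.1 h
    obtain ⟨i, rfl⟩ := hA (by simp : x ∈ (({x} : Finset (E 4)) : Set (E 4)))
    refine ⟨hull pt {i, i}, (pair_face i i).1, ?_⟩
    unfold vert
    rw [ext_hull]
    simp
  · obtain ⟨x, y, hxy, rfl⟩ := Finset.card_eq_two.1 h
    obtain ⟨i, rfl⟩ := hA (by simp : x ∈ (({x, y} : Finset (E 4)) : Set (E 4)))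
    obtain ⟨j, rfl⟩ := hA (by simp : y ∈ (({pt i, y} : Finset (E 4)) : Set (E 4)))
    refine ⟨hull pt {i, j}, (pair_face i j).1, ?_⟩
    unfold vert
    rw [ext_hull]
    simp [Set.image_pair]

/-- supporting functionals from neighborliness -/
theorem support_of_neighborly {Q : Set (E 4)} (hQ : Neighborly Q) (A : Finset (E 4))
    (hA : (A : Set (E 4)) ⊆ vert Q) (hne : A.Nonempty) (hcard : A.card ≤ 2) :
    ∃ (l : StrongDual ℝ (E 4)) (M : ℝ), (∀ w ∈ A, l w = M) ∧ ∀ w ∈ vert Q, w ∉ A → l w < M := by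
  obtain ⟨F, hF, hFA⟩ := hQ A hA hcard
  obtain ⟨w0, hw0⟩ := hne
  have hAF : ∀ w ∈ A, w ∈ F := by
    intro w hw
    have : w ∈ vert F := by rw [hFA]; exact hw
    exact extremePoints_subset this
  obtain ⟨l, hl⟩ := hF ⟨w0, hAF w0 hw0⟩
  have hw0F := hAF w0 hw0
  rw [hl] at hw0F
  have hFQ : F ⊆ Q := by
    intro x hx
    rw [hl] at hx
    exact hx.1
  refine ⟨l, l w0, ?_, ?_⟩
  · intro w hw
    have hwF := hAF w hw
    rw [hl] at hwF
    exact le_antisymm (hw0F.2 w hwF.1) (hwF.2 w0 hw0F.1)
  · intro w hw hwA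
    have hwQ : w ∈ Q := extremePoints_subset hw
    refine lt_of_le_of_ne (hw0F.2 w hwQ) ?_
    intro heq
    apply hwA
    have hwF : w ∈ F := by
      rw [hl]
      exact ⟨hwQ, fun y hy => by rw [heq]; exact hw0F.2 y hy⟩
    have : w ∈ vert F := inter_extremePoints_subset_extremePoints_of_subset hFQ ⟨hwF, hw⟩
    rw [hFA] at this
    exact this

/-- the homogenized point -/
noncomputable def hom (w : E 4) : Fin 5 → ℝ := Fin.cons 1 (fun j => w j)

/-- the last four coordinates -/
noncomputable def tail : (Fin 5 → ℝ) →ₗ[ℝ] E 4 :=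
  (WithLp.linearEquiv 2 ℝ (Fin 4 → ℝ)).symm.toLinearMap ∘ₗ LinearMap.funLeft ℝ ℝ Fin.succ

theorem tail_hom (w : E 4) : tail (hom w) = w := by
  ext j
  simp [tail, hom, LinearMap.funLeft]

/-- the homogenized functional `M - l` -/
noncomputable def homf (l : StrongDual ℝ (E 4)) (M : ℝ) : Fn :=
  M • (LinearMap.proj 0 : (Fin 5 → ℝ) →ₗ[ℝ] ℝ) - l.toLinearMap ∘ₗ tail

theorem homf_apply (l : StrongDual ℝ (E 4)) (M : ℝ) (w : E 4) : homf l M (hom w) = M - l w := by
  unfold homf
  rw [LinearMap.sub_apply, LinearMap.smul_apply, LinearMap.comp_apply, tail_hom]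
  simp [hom]

theorem not_extendable : ¬ Extendable (poly pt) := by
  classical
  rintro ⟨Q, -, hnQ, hcard, v, hv, hΘ⟩
  rw [poly_ncard] at hcard
  have hfinQ : (vert Q).Finite := Set.finite_of_ncard_pos (by omega)
  have hAcard : (vert Q \ {v}).ncard = 14 := by
    rw [Set.ncard_sdiff_singleton_of_mem hv, hcard]
  have hfinA : (vert Q \ {v}).Finite := hfinQ.subset Set.sdiff_subset
  have hsc : hfinA.toFinset.card = 14 := by
    rw [← Set.ncard_eq_toFinset_card _ hfinA, hAcard]
  set e : Fin 14 ≃ hfinA.toFinset := (hfinA.toFinset.equivFinOfCardEq hsc).symm with he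
  set q0 : Fin 14 → Sp 4 := fun i => (e i).1 with hq0
  have q0inj : Function.Injective q0 := fun i j h => e.injective (Subtype.ext h)
  have q0A : ∀ i, q0 i ∈ vert Q \ {v} := fun i => (Set.Finite.mem_toFinset hfinA).1 (e i).2
  have q0range : Set.range q0 = vert Q \ {v} := by
    apply Set.Subset.antisymm
    · rintro _ ⟨i, rfl⟩
      exact q0A i
    · intro x hx
      refine ⟨e.symm ⟨x, (Set.Finite.mem_toFinset hfinA).2 hx⟩, ?_⟩
      simp [hq0]
  have hR : convexHull ℝ (vert Q \ {v}) = poly q0 := by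
    unfold poly
    rw [q0range]
  rw [hR] at hΘ
  obtain ⟨Θ⟩ := hΘ
  -- singletons are faces of `R`
  have single0 : ∀ k, IsExposed ℝ (poly q0) {q0 k} := by
    intro k
    obtain ⟨l, M, h1, h2⟩ := support_of_neighborly hnQ {q0 k}
      (by intro x hx; rw [Finset.coe_singleton, Set.mem_singleton_iff] at hx; rw [hx]; exact (q0A k).1)
      (by simp) (by simp)
    have h3 := (exposed_of_functional q0 {k} l M
      (by intro j hj; rw [Finset.mem_singleton.1 hj]; exact h1 _ (by simp))
      (by
        intro j hj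
        apply h2 _ (q0A j).1
        rw [Finset.mem_singleton] at hj ⊢
        exact fun h => hj (q0inj h))).1
    have h4 : hull q0 {k} = {q0 k} := by simp [hull]
    rwa [h4] at h3
  -- the empty faces correspond
  have emR : IsExposed ℝ (poly q0) (∅ : Set (Sp 4)) := isExposed_empty
  have emP : IsExposed ℝ (poly pt) (∅ : Set (Sp 4)) := isExposed_empty
  have hempty : Θ ⟨∅, emR⟩ = ⟨∅, emP⟩ := by
    apply Subtype.ext
    apply Set.eq_empty_of_subset_empty
    have h1 : (⟨∅, emR⟩ : faces (poly q0)) ≤ Θ.symm ⟨∅, emP⟩ := by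
      intro x hx
      exact absurd hx (Set.notMem_empty x)
    have h2 := (Θ.le_symm_apply).1 h1
    exact h2
  have hvert : ∀ i : Fin 14, ∃ k : Fin 14, Θ ⟨{q0 k}, single0 k⟩ = ⟨{pt i}, single_face i⟩ := by
    intro i
    set G := Θ.symm ⟨{pt i}, single_face i⟩ with hG
    have hGne : (G.1).Nonempty := by
      rw [Set.nonempty_iff_ne_empty]
      intro h
      have h1 : G = ⟨∅, emR⟩ := Subtype.ext h
      have h2 : Θ G = ⟨∅, emP⟩ := by rw [h1, hempty]
      rw [hG, Θ.apply_symm_apply] at h2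
      have h3 := congrArg Subtype.val h2
      exact Set.singleton_ne_empty _ h3
    obtain ⟨k, hk⟩ := nonempty_ind q0 G.2 hGne
    refine ⟨k, ?_⟩
    have h1 : (⟨{q0 k}, single0 k⟩ : faces (poly q0)) ≤ G := by
      intro x hx
      rw [Set.mem_singleton_iff.1 hx]
      exact hk
    have h2 : Θ ⟨{q0 k}, single0 k⟩ ≤ ⟨{pt i}, single_face i⟩ := by
      have := (Θ.le_symm_apply).1 (hG ▸ h1)
      exact this
    have h3 : (Θ ⟨{q0 k}, single0 k⟩).1 ⊆ {pt i} := h2
    apply Subtype.ext
    rcases Set.subset_singleton_iff_eq.1 h3 with h4 | h4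
    · exfalso
      have h5 : Θ ⟨{q0 k}, single0 k⟩ = Θ ⟨∅, emR⟩ := by
        rw [hempty]
        exact Subtype.ext h4
      have h6 := congrArg Subtype.val (Θ.injective h5)
      exact Set.singleton_ne_empty _ h6
    · exact h4
  choose τ hτ using hvert
  have τinj : Function.Injective τ := by
    intro i j hij
    have h1 := hτ i
    have h2 := hτ j
    have h3 : Θ ⟨{q0 (τ i)}, single0 (τ i)⟩ = Θ ⟨{q0 (τ j)}, single0 (τ j)⟩ := by
      congr 1
      apply Subtype.ext
      show {q0 (τ i)} = {q0 (τ j)}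
      rw [hij]
    rw [h1, h2] at h3
    have h4 := congrArg Subtype.val h3
    exact pt_inj (Set.singleton_injective h4)
  -- membership in faces
  have hmem : ∀ (F : faces (poly pt)) (k : Fin 14), q0 (τ k) ∈ (Θ.symm F).1 ↔ pt k ∈ F.1 := by
    intro F k
    have h1 : q0 (τ k) ∈ (Θ.symm F).1 ↔ (⟨{q0 (τ k)}, single0 (τ k)⟩ : faces (poly q0)) ≤ Θ.symm F := by
      constructor
      · intro h x hx
        rw [Set.mem_singleton_iff.1 hx]
        exact h
      · intro h
        exact h (Set.mem_singleton _)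
    rw [h1, Θ.le_symm_apply, hτ k]
    constructor
    · intro h
      exact h (Set.mem_singleton _)
    · intro h x hx
      rw [Set.mem_singleton_iff.1 hx]
      exact h
  -- the fifteen points
  set w : ℕ → E 4 := fun k => if h : k < 14 then q0 (τ ⟨k, h⟩) else v with hw
  have hw1 : ∀ k (h : k < 14), w k = q0 (τ ⟨k, h⟩) := by
    intro k h
    simp only [hw, dif_pos h]
  have hw2 : w 14 = v := by
    simp [hw]
  have hwQ : ∀ k ≤ 14, w k ∈ vert Q := by
    intro k hk
    by_cases h : k < 14
    · rw [hw1 k h]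
      exact (q0A _).1
    · have : k = 14 := by omega
      rw [this, hw2]
      exact hv
  have hwinj : ∀ a b, a ≤ 14 → b ≤ 14 → w a = w b → a = b := by
    intro a b ha hb hab
    by_cases h1 : a < 14
    · by_cases h2 : b < 14
      · rw [hw1 a h1, hw1 b h2] at hab
        exact Fin.mk.inj_iff.1 (τinj (q0inj hab))
      · exfalso
        have : b = 14 := by omega
        rw [this, hw2, hw1 a h1] at hab
        exact (q0A (τ ⟨a, h1⟩)).2 hab
    · by_cases h2 : b < 14
      · exfalso
        have : a = 14 := by omega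
        rw [this, hw2, hw1 b h2] at hab
        exact (q0A (τ ⟨b, h2⟩)).2 hab.symm
      · omega
  have hp : Pairs (fun k => hom (w k)) := by
    intro a b ha hb hab
    obtain ⟨l, M, h1, h2⟩ := support_of_neighborly hnQ {w a, w b}
      (by
        intro x hx
        rw [Finset.coe_insert, Finset.coe_singleton] at hx
        rcases hx with rfl | hx
        · exact hwQ a ha
        · rw [Set.mem_singleton_iff.1 hx]
          exact hwQ b hb)
      (by simp) (Finset.card_le_two)
    refine ⟨homf l M, ?_, ?_, ?_⟩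
    · show homf l M (hom (w a)) = 0
      rw [homf_apply, h1 _ (by simp), sub_self]
    · show homf l M (hom (w b)) = 0
      rw [homf_apply, h1 _ (by simp), sub_self]
    · intro k hk hka hkb
      show 0 < homf l M (hom (w k))
      rw [homf_apply, sub_pos]
      apply h2 _ (hwQ k hk)
      rw [Finset.mem_insert, Finset.mem_singleton, not_or]
      exact ⟨fun h => hka (hwinj k a hk ha h), fun h => hkb (hwinj k b hk hb h)⟩
  have hfac : ∀ i < 77, ∃ g : Fn, (g (hom (w (fv FT i 0))) = 0 ∧ g (hom (w (fv FT i 1))) = 0 ∧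
      g (hom (w (fv FT i 2))) = 0 ∧ g (hom (w (fv FT i 3))) = 0) ∧ ∀ k ≤ 13, k ≠ fv FT i 0 →
      k ≠ fv FT i 1 → k ≠ fv FT i 2 → k ≠ fv FT i 3 → 0 < g (hom (w k)) := by
    intro i hi
    obtain ⟨hI, hind⟩ := facet_face i hi
    obtain ⟨f1, f2, f3, f4⟩ := hFT i hi
    have hmemI : ∀ (k : ℕ) (hk : k < 14), w k ∈ (Θ.symm ⟨hull pt (facS i), hI⟩).1 ↔
        (k = fv FT i 0 ∨ k = fv FT i 1 ∨ k = fv FT i 2 ∨ k = fv FT i 3) := by
      intro k hk
      rw [hw1 k hk, hmem, ← memF_iff]
      show pt ⟨k, hk⟩ ∈ hull pt (facS i) ↔ _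
      rw [← mem_ind, hind]
      simp [facS]
    have hne : ((Θ.symm ⟨hull pt (facS i), hI⟩).1).Nonempty :=
      ⟨w (fv FT i 0), (hmemI _ (by omega)).2 (Or.inl rfl)⟩
    obtain ⟨l, M, h1, h2, -⟩ := face_data (A := Set.range q0) (Θ.symm ⟨hull pt (facS i), hI⟩).2 hne
    have hval : ∀ (k : ℕ) (hk : k < 14), (l (w k) = M ↔
        (k = fv FT i 0 ∨ k = fv FT i 1 ∨ k = fv FT i 2 ∨ k = fv FT i 3)) := by
      intro k hk
      rw [← hmemI k hk, h2]
      constructor
      · intro h
        refine ⟨?_, h⟩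
        rw [hw1 k hk]
        exact subset_convexHull ℝ _ ⟨_, rfl⟩
      · intro h
        exact h.2
    have hle : ∀ (k : ℕ) (hk : k < 14), l (w k) ≤ M := by
      intro k hk
      apply h1
      rw [hw1 k hk]
      exact subset_convexHull ℝ _ ⟨_, rfl⟩
    refine ⟨homf l M, ⟨?_, ?_, ?_, ?_⟩, ?_⟩
    · rw [homf_apply, (hval _ (by omega)).2 (Or.inl rfl), sub_self]
    · rw [homf_apply, (hval _ (by omega)).2 (Or.inr (Or.inl rfl)), sub_self]
    · rw [homf_apply, (hval _ (by omega)).2 (Or.inr (Or.inr (Or.inl rfl))), sub_self]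
    · rw [homf_apply, (hval _ (by omega)).2 (Or.inr (Or.inr (Or.inr rfl))), sub_self]
    · intro k hk k0 k1 k2 k3
      rw [homf_apply, sub_pos]
      refine lt_of_le_of_ne (hle k (by omega)) ?_
      intro h
      rcases (hval k (by omega)).1 h with h | h | h | h
      · exact k0 h
      · exact k1 h
      · exact k2 h
      · exact k3 h
  exact no_good _ (good_sg FT (fun k => hom (w k)) hp hFT hfac)

/-- Shemer's question has a negative answer: there is a neighborly `4`-polytope with `14` vertices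
that is not extendable. -/
theorem result : ∃ P : Set (E 4), IsDPolytope 4 P ∧ Neighborly P ∧ (vert P).ncard = 14 ∧
    ¬ Extendable P :=
  ⟨poly pt, poly_isD, poly_neighborly, poly_ncard, not_extendable⟩

end Pool.Agent.Results.MP_1c334d_co.NotExtendable
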